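import Mathlib

set_option autoImplicit false

/-! Elementary estimates for the record scale. -/

namespace Pool.Agent.helper391_DG

open Filter

/-- the record scale as a function of the logarithm -/
noncomputable def F (l : ℝ) : ℝ :=
  l * (Real.log l) ^ 2 * Real.log (Real.log (Real.log l)) / (Real.log (Real.log l)) ^ 2

theorem F_scale (η : ℝ) (hη : 0 < η) : ∃ R : ℝ, ∀ L : ℝ, R ≤ L → ∀ L' : ℝ, η * L ≤ L' → L' ≤ L →
    0 < F L ∧ η / 8 * F L ≤ F L' := by
  have hlog := Real.tendsto_log_atTop
  have hll : Tendsto (fun l : ℝ => Real.log (Real.log l)) atTop atTop := hlog.comp hlog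
  have hlll : Tendsto (fun l : ℝ => Real.log (Real.log (Real.log l))) atTop atTop := hlog.comp hll
  have hev := (((hlog.eventually_ge_atTop (2 * |Real.log η|)).and (hll.eventually_ge_atTop 4)).and
    (hlll.eventually_ge_atTop 2)).and (eventually_ge_atTop (1 : ℝ))
  obtain ⟨R, hR⟩ := eventually_atTop.1 hev
  refine ⟨R, fun L hL L' h1 h2 => ?_⟩
  obtain ⟨⟨⟨a1, a2⟩, a3⟩, a4⟩ := hR L hL
  have hL0 : 0 < L := by linarith
  have hL'0 : 0 < L' := lt_of_lt_of_le (by positivity) h1
  set u := Real.log L with hu
  set s := Real.log u with hs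
  set w := Real.log s with hw
  have hs0 : 0 < s := by linarith
  have hu0 : 0 < u := by
    by_contra hcon
    push Not at hcon
    have h3 : 0 ≤ -u := by linarith
    rcases eq_or_lt_of_le hcon with h4 | h4
    · rw [hs, h4, Real.log_zero] at a2; linarith
    · have h5 : 0 ≤ 2 * |Real.log η| := by positivity
      linarith
  have hw0 : 0 < w := by linarith
  have hl2 : Real.log 2 ≤ 1 := by
    have := Real.log_two_lt_d9
    linarith
  set u' := Real.log L' with hu'
  have hu'1 : u / 2 ≤ u' := by
    have h3 : Real.log (η * L) ≤ u' := Real.log_le_log (by positivity) h1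
    rw [Real.log_mul hη.ne' hL0.ne', ← hu] at h3
    have h4 := neg_abs_le (Real.log η)
    linarith
  have hu'2 : u' ≤ u := Real.log_le_log hL'0 h2
  have hu'0 : 0 < u' := by linarith
  set s' := Real.log u' with hs'
  have hs'1 : s - 1 ≤ s' := by
    have h3 : Real.log (u / 2) ≤ s' := Real.log_le_log (by linarith) hu'1
    rw [Real.log_div hu0.ne' (by norm_num), ← hs] at h3
    linarith
  have hs'2 : s' ≤ s := Real.log_le_log hu'0 hu'2
  have hs'0 : 0 < s' := by linarith
  set w' := Real.log s' with hw'
  have hw'1 : w / 2 ≤ w' := by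
    have h3 : Real.log (s / 2) ≤ w' := Real.log_le_log (by linarith) (by linarith)
    rw [Real.log_div hs0.ne' (by norm_num), ← hw] at h3
    linarith
  have hFL : F L = L * u ^ 2 * w / s ^ 2 := rfl
  have hFL' : F L' = L' * u' ^ 2 * w' / s' ^ 2 := rfl
  rw [hFL, hFL']
  refine ⟨by positivity, ?_⟩
  have h5 : η * L * (u / 2) ^ 2 * (w / 2) ≤ L' * u' ^ 2 * w' := by
    gcongr
  have h6 : η / 8 * (L * u ^ 2 * w / s ^ 2) = η * L * (u / 2) ^ 2 * (w / 2) / s ^ 2 := by
    ring
  rw [h6]
  calc η * L * (u / 2) ^ 2 * (w / 2) / s ^ 2 ≤ L' * u' ^ 2 * w' / s ^ 2 := by gcongr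
    _ ≤ L' * u' ^ 2 * w' / s' ^ 2 := by
        apply div_le_div_of_nonneg_left
        · have : 0 ≤ w' := by linarith
          positivity
        · positivity
        · gcongr

theorem thr_large (T : ℝ) : ∀ᶠ x : ℝ in atTop,
    T ≤ Real.exp (Real.log (Real.log x) * Real.log (Real.log (Real.log (Real.log x))) /
        (20 * Real.log (Real.log (Real.log x)))) := by
  have hlog := Real.tendsto_log_atTop
  have hll : Tendsto (fun l : ℝ => Real.log (Real.log l)) atTop atTop := hlog.comp hlog
  have key : ∀ᶠ s : ℝ in atTop, T ≤ Real.exp (s * Real.log (Real.log s) / (20 * Real.log s)) := by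
    have h1 := Real.isLittleO_log_id_atTop.def (show (0 : ℝ) < 1 / (20 * (|T| + 1)) by positivity)
    have h2 := ((h1.and (hlog.eventually_ge_atTop 1)).and (hll.eventually_ge_atTop 1)).and
      (eventually_ge_atTop (1 : ℝ))
    filter_upwards [h2] with s hs
    obtain ⟨⟨⟨a1, a2⟩, a3⟩, a4⟩ := hs
    have hls : 0 < Real.log s := by linarith
    rw [Real.norm_eq_abs, abs_of_pos hls, id, Real.norm_eq_abs,
      abs_of_pos (show (0 : ℝ) < s by linarith)] at a1
    have h3 : |T| + 1 ≤ s / (20 * Real.log s) := by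
      rw [le_div_iff₀ (by positivity)]
      have h4 : 0 < 20 * (|T| + 1) := by positivity
      rw [one_div_mul_eq_div, le_div_iff₀ h4] at a1
      linarith
    have h4 : s / (20 * Real.log s) ≤ s * Real.log (Real.log s) / (20 * Real.log s) := by
      apply div_le_div_of_nonneg_right _ (by positivity)
      nlinarith
    have h5 := Real.add_one_le_exp (s * Real.log (Real.log s) / (20 * Real.log s))
    have h6 := le_abs_self T
    linarith
  exact hll.eventually key

end Pool.Agent.helper391_DG
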