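import Mathlib

set_option autoImplicit false

/-! Prime factors of `b ^ k - 1`, `k` prime. -/

namespace Pool.Agent.helper391_DG

open Finset

theorem pow_mod_one {b k g : ℕ} (hb : 2 ≤ b) (h : g ∣ b ^ k - 1) : ((b : ZMod g)) ^ k = 1 := by
  have h1 : 1 ≤ b ^ k := Nat.one_le_pow _ _ (by omega)
  have h2 : ((b ^ k - 1 : ℕ) : ZMod g) = 0 := (ZMod.natCast_eq_zero_iff _ _).2 h
  rw [Nat.cast_sub h1] at h2
  push_cast at h2
  linear_combination h2

/-- a small divisor of `b ^ k - 1` divides `b - 1` -/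
theorem small_dvd {b k g : ℕ} (hb : 2 ≤ b) (hk : k.Prime) (hg0 : 0 < g) (hg : g < k)
    (h : g ∣ b ^ k - 1) : g ∣ b - 1 := by
  have : NeZero g := ⟨hg0.ne'⟩
  have h1 := pow_mod_one hb h
  set u : (ZMod g)ˣ := Units.ofPowEqOne (b : ZMod g) k h1 hk.ne_zero with hu
  have hu1 : u ^ k = 1 := by
    apply Units.ext
    rw [Units.val_pow_eq_pow_val, Units.val_one, hu]
    exact h1
  have hord : orderOf u ∣ k := orderOf_dvd_of_pow_eq_one hu1
  have hle : orderOf u ≤ g := by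
    refine (orderOf_le_card_univ).trans ?_
    rw [ZMod.card_units_eq_totient]
    exact Nat.totient_le g
  have hone : orderOf u = 1 := by
    rcases (Nat.dvd_prime hk).1 hord with h2 | h2
    · exact h2
    · omega
  have h2 : u = 1 := orderOf_eq_one_iff.1 hone
  have h3 : (b : ZMod g) = 1 := by
    have := congrArg Units.val h2
    rw [hu] at this
    simpa using this
  have h4 : ((b - 1 : ℕ) : ZMod g) = 0 := by
    rw [Nat.cast_sub (by omega), h3]; simp
  exact (ZMod.natCast_eq_zero_iff _ _).1 h4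

/-- the new prime factors are large -/
theorem big_prime {b k p : ℕ} (hb : 2 ≤ b) (hk : k.Prime) (hp : p.Prime)
    (h : p ∣ b ^ k - 1) (hpb : ¬ p ∣ b - 1) : k < p := by
  by_contra hcon
  push Not at hcon
  rcases lt_or_eq_of_le hcon with h1 | h1
  · exact hpb (small_dvd hb hk hp.pos h1 h)
  · subst h1
    have : Fact p.Prime := ⟨hp⟩
    have h2 := pow_mod_one hb h
    rw [ZMod.pow_card] at h2
    apply hpb
    have h4 : ((b - 1 : ℕ) : ZMod p) = 0 := by
      rw [Nat.cast_sub (by omega), h2]; simp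
    exact (ZMod.natCast_eq_zero_iff _ _).1 h4

/-- the new prime factors -/
noncomputable def newp (b k : ℕ) : Finset ℕ := (b ^ k - 1).primeFactors.filter fun p => ¬ p ∣ b - 1

theorem newp_sum {b k : ℕ} (hb : 2 ≤ b) (hk : k.Prime) :
    ∑ p ∈ newp b k, 1 / (p : ℝ) ≤ Real.log b / Real.log k := by
  have hk2 : 2 ≤ k := hk.two_le
  have hkR : (2 : ℝ) ≤ k := by exact_mod_cast hk2
  have hlk : 0 < Real.log k := Real.log_pos (by linarith)
  have hbig : ∀ p ∈ newp b k, k < p := by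
    intro p hp
    unfold newp at hp
    rw [mem_filter, Nat.mem_primeFactors] at hp
    exact big_prime hb hk hp.1.1 hp.1.2.1 hp.2
  have hpos : 0 < b ^ k - 1 := by
    have : 2 ^ 1 ≤ b ^ k := (Nat.pow_le_pow_left hb 1).trans
      (Nat.pow_le_pow_right (by omega) (by omega))
    omega
  -- the number of new primes
  have h1 : k ^ (newp b k).card ≤ b ^ k := by
    calc k ^ (newp b k).card = ∏ _p ∈ newp b k, k := by rw [prod_const]
      _ ≤ ∏ p ∈ newp b k, p := Finset.prod_le_prod' (fun p hp => (hbig p hp).le)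
      _ ≤ ∏ p ∈ (b ^ k - 1).primeFactors, p := by
          apply Finset.prod_le_prod_of_subset_of_one_le' (filter_subset _ _)
          intro p hp _
          exact (Nat.prime_of_mem_primeFactors hp).one_lt.le
      _ ≤ b ^ k - 1 := Nat.le_of_dvd hpos (Nat.prod_primeFactors_dvd _)
      _ ≤ b ^ k := Nat.sub_le _ _
  have h2 : ((newp b k).card : ℝ) * Real.log k ≤ k * Real.log b := by
    rw [← Real.log_pow, ← Real.log_pow]
    apply Real.log_le_log (by positivity)
    exact_mod_cast h1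
  calc ∑ p ∈ newp b k, 1 / (p : ℝ) ≤ ∑ _p ∈ newp b k, 1 / (k : ℝ) := by
        apply Finset.sum_le_sum
        intro p hp
        apply one_div_le_one_div_of_le (by linarith)
        exact_mod_cast (hbig p hp).le
    _ = (newp b k).card / (k : ℝ) := by rw [sum_const, nsmul_eq_mul]; ring
    _ ≤ _ := by
        rw [div_le_div_iff₀ (by linarith) hlk]
        linarith

theorem prod_ge (s : Finset ℕ) (hs : ∀ p ∈ s, 1 ≤ p) :
    1 - ∑ p ∈ s, 1 / (p : ℝ) ≤ ∏ p ∈ s, (1 - 1 / (p : ℝ)) := by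
  induction s using Finset.induction_on with
  | empty => simp
  | insert a s ha ih =>
    rw [Finset.sum_insert ha, Finset.prod_insert ha]
    have h1 := ih (fun p hp => hs p (mem_insert_of_mem hp))
    have h2 : (1 : ℝ) ≤ a := by exact_mod_cast hs a (mem_insert_self _ _)
    have h3 : 1 / (a : ℝ) ≤ 1 := by rw [div_le_one (by linarith)]; exact h2
    have h4 : 0 ≤ 1 / (a : ℝ) := by positivity
    have h5 : 0 ≤ ∑ p ∈ s, 1 / (p : ℝ) := Finset.sum_nonneg (fun p _ => by positivity)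
    nlinarith

/-- lower bound for `φ(d) / d` -/
theorem tot_ge {b m k : ℕ} (hb : 2 ≤ b) (hm : 1 ≤ m) (hk : k.Prime)
    (hlog : Real.log b / Real.log k ≤ 1 / 2) :
    1 / (2 * (m * (b - 1 : ℕ)) : ℝ) ≤ (Nat.totient ((b ^ k - 1) * m) : ℝ) / ((b ^ k - 1) * m : ℕ) := by
  classical
  have hpos : 0 < b ^ k - 1 := by
    have : 2 ^ 1 ≤ b ^ k := (Nat.pow_le_pow_left hb 1).trans
      (Nat.pow_le_pow_right (by omega) hk.pos)
    omega
  set d := (b ^ k - 1) * m with hd
  set e := m * (b - 1) with he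
  have hd0 : d ≠ 0 := by positivity
  have he0 : e ≠ 0 := by
    have : 0 < b - 1 := by omega
    positivity
  have htot : ∀ x : ℕ, x ≠ 0 → (Nat.totient x : ℝ) / x = ∏ p ∈ x.primeFactors, (1 - 1 / (p : ℝ)) := by
    intro x hx
    have h1 := Nat.totient_eq_mul_prod_factors x
    have h2 : ((Nat.totient x : ℚ) : ℝ) = ((x * ∏ p ∈ x.primeFactors, (1 - (p : ℚ)⁻¹) : ℚ) : ℝ) := by
      rw [h1]
    push_cast at h2
    rw [h2, mul_div_cancel_left₀ _ (by exact_mod_cast hx)]
    apply Finset.prod_congr rfl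
    intro p _
    rw [one_div]
  rw [htot d hd0]
  have hfac : ∀ s : Finset ℕ, (∀ p ∈ s, p.Prime) → ∀ p ∈ s, (0 : ℝ) ≤ 1 - 1 / (p : ℝ) ∧
      1 - 1 / (p : ℝ) ≤ 1 := by
    intro s hs p hp
    have h1 : (1 : ℝ) ≤ p := by exact_mod_cast (hs p hp).one_lt.le
    have h3 : 1 / (p : ℝ) ≤ 1 := by rw [div_le_one (by linarith)]; exact h1
    have h4 : 0 ≤ 1 / (p : ℝ) := by positivity
    constructor <;> linarith
  have hsub : d.primeFactors ⊆ e.primeFactors ∪ newp b k := by
    intro p hp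
    rw [Nat.mem_primeFactors] at hp
    obtain ⟨hp1, hp2, -⟩ := hp
    rw [mem_union]
    by_cases h1 : p ∣ e
    · left; exact Nat.mem_primeFactors.2 ⟨hp1, h1, he0⟩
    · right
      have h2 : ¬ p ∣ m := fun h => h1 (h.trans (Dvd.intro _ rfl))
      have h3 : ¬ p ∣ b - 1 := fun h => h1 (h.trans (Dvd.intro_left _ rfl))
      unfold newp
      rw [mem_filter, Nat.mem_primeFactors]
      refine ⟨⟨hp1, ?_, hpos.ne'⟩, h3⟩
      exact (hp1.dvd_mul.1 hp2).resolve_right h2
  have hprime1 : ∀ p ∈ e.primeFactors, p.Prime := fun p hp => Nat.prime_of_mem_primeFactors hp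
  have hprime2 : ∀ p ∈ newp b k, p.Prime := by
    intro p hp
    unfold newp at hp
    exact Nat.prime_of_mem_primeFactors (mem_filter.1 hp).1
  have hprimeU : ∀ p ∈ e.primeFactors ∪ newp b k, p.Prime := by
    intro p hp
    rcases mem_union.1 hp with h | h
    · exact hprime1 p h
    · exact hprime2 p h
  have h1 : ∏ p ∈ e.primeFactors ∪ newp b k, (1 - 1 / (p : ℝ)) ≤
      ∏ p ∈ d.primeFactors, (1 - 1 / (p : ℝ)) := by
    rw [← Finset.prod_sdiff hsub]
    have h2 : ∏ p ∈ (e.primeFactors ∪ newp b k) \ d.primeFactors, (1 - 1 / (p : ℝ)) ≤ 1 := by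
      apply Finset.prod_le_one
      · intro p hp; exact (hfac _ hprimeU p (mem_sdiff.1 hp).1).1
      · intro p hp; exact (hfac _ hprimeU p (mem_sdiff.1 hp).1).2
    have h3 : 0 ≤ ∏ p ∈ d.primeFactors, (1 - 1 / (p : ℝ)) :=
      Finset.prod_nonneg (fun p hp => (hfac _ hprimeU p (hsub hp)).1)
    nlinarith
  have h2 : (∏ p ∈ e.primeFactors, (1 - 1 / (p : ℝ))) * ∏ p ∈ newp b k, (1 - 1 / (p : ℝ)) ≤
      ∏ p ∈ e.primeFactors ∪ newp b k, (1 - 1 / (p : ℝ)) := by
    rw [← Finset.prod_union_inter]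
    have h3 : ∏ p ∈ e.primeFactors ∩ newp b k, (1 - 1 / (p : ℝ)) ≤ 1 := by
      apply Finset.prod_le_one
      · intro p hp; exact (hfac _ hprime1 p (mem_inter.1 hp).1).1
      · intro p hp; exact (hfac _ hprime1 p (mem_inter.1 hp).1).2
    have h4 : 0 ≤ ∏ p ∈ e.primeFactors ∪ newp b k, (1 - 1 / (p : ℝ)) :=
      Finset.prod_nonneg (fun p hp => (hfac _ hprimeU p hp).1)
    nlinarith
  have h3 : 1 / (e : ℝ) ≤ ∏ p ∈ e.primeFactors, (1 - 1 / (p : ℝ)) := by
    rw [← htot e he0]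
    have : (1 : ℝ) ≤ Nat.totient e := by
      exact_mod_cast Nat.totient_pos.2 (Nat.pos_of_ne_zero he0)
    have he' : (0 : ℝ) < e := by exact_mod_cast Nat.pos_of_ne_zero he0
    gcongr
  have h4 : 1 / 2 ≤ ∏ p ∈ newp b k, (1 - 1 / (p : ℝ)) := by
    refine le_trans ?_ (prod_ge _ (fun p hp => (hprime2 p hp).one_lt.le))
    have := newp_sum hb hk
    linarith
  have he' : (0 : ℝ) < e := by exact_mod_cast Nat.pos_of_ne_zero he0
  have h5 : 0 ≤ 1 / (e : ℝ) := by positivity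
  have e1 : 1 / (2 * (m * (b - 1 : ℕ)) : ℝ) = 1 / (e : ℝ) * (1 / 2) := by
    rw [he]; push_cast
    rw [one_div, one_div, one_div, mul_inv, mul_comm]
  rw [e1]
  calc 1 / (e : ℝ) * (1 / 2) ≤ (∏ p ∈ e.primeFactors, (1 - 1 / (p : ℝ))) *
        ∏ p ∈ newp b k, (1 - 1 / (p : ℝ)) := mul_le_mul h3 h4 (by norm_num) (h5.trans h3)
    _ ≤ _ := h2.trans h1

/-- the large prime factors of `d = (b ^ k - 1) m` -/
theorem large_sum {b m k : ℕ} (hb : 2 ≤ b) (hm : 1 ≤ m) (hk : k.Prime) (T : ℝ)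
    (hT1 : (m : ℝ) ≤ T) (hT2 : (b : ℝ) ≤ T) :
    ∑ p ∈ ((b ^ k - 1) * m).primeFactors with T < ((p : ℕ) : ℝ), 1 / ((p : ℕ) : ℝ) ≤
      Real.log b / Real.log k := by
  classical
  refine le_trans ?_ (newp_sum hb hk)
  apply Finset.sum_le_sum_of_subset_of_nonneg
  · intro p hp
    rw [mem_filter, Nat.mem_primeFactors] at hp
    obtain ⟨⟨hp1, hp2, hp3⟩, hp4⟩ := hp
    have hpos : b ^ k - 1 ≠ 0 := fun h => hp3 (by rw [h, zero_mul])
    have h1 : ¬ p ∣ m := by
      intro h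
      have : p ≤ m := Nat.le_of_dvd hm h
      have : (p : ℝ) ≤ m := by exact_mod_cast this
      linarith
    have h2 : ¬ p ∣ b - 1 := by
      intro h
      have : p ≤ b - 1 := Nat.le_of_dvd (by omega) h
      have : (p : ℝ) ≤ b := by exact_mod_cast this.trans (Nat.sub_le _ _)
      linarith
    unfold newp
    rw [mem_filter, Nat.mem_primeFactors]
    exact ⟨⟨hp1, (hp1.dvd_mul.1 hp2).resolve_right h1, hpos⟩, h2⟩
  · intro p _ _
    positivity

end Pool.Agent.helper391_DG
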