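import Mathlib

set_option autoImplicit false

/-! Digit sums. -/

namespace Pool.Agent.helper391_DG

/-- the sum of the digits of `n` in base `b` -/
def ds (b n : ℕ) : ℕ := (Nat.digits b n).sum

theorem ds_zero (b : ℕ) : ds b 0 = 0 := by simp [ds]

theorem ds_add {b : ℕ} (hb : 2 ≤ b) (x d : ℕ) (hd : d < b) : ds b (b * x + d) = ds b x + d := by
  unfold ds
  rcases Nat.eq_zero_or_pos (b * x + d) with h | h
  · have h1 : d = 0 := by omega
    have h2 : b * x = 0 := by omega
    have h3 : x = 0 := by
      rcases Nat.mul_eq_zero.1 h2 with h | h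
      · omega
      · exact h
    subst h1; subst h3; simp
  · rw [Nat.digits_def' (by omega) h]
    have h1 : (b * x + d) % b = d := by
      rw [Nat.mul_add_mod, Nat.mod_eq_of_lt hd]
    have h2 : (b * x + d) / b = x := by
      rw [Nat.mul_add_div (by omega), Nat.div_eq_of_lt hd, add_zero]
    rw [h1, h2, List.sum_cons]
    ring

theorem ds_lt {b : ℕ} (hb : 2 ≤ b) (d : ℕ) (hd : d < b) : ds b d = d := by
  have := ds_add hb 0 d hd
  rw [mul_zero, zero_add, ds_zero, zero_add] at this
  exact this

/-- splitting the expansion -/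
theorem ds_split {b : ℕ} (hb : 2 ≤ b) (k : ℕ) : ∀ x y : ℕ, y < b ^ k →
    ds b (x * b ^ k + y) = ds b x + ds b y := by
  induction k with
  | zero =>
    intro x y hy
    have : y = 0 := by simpa using hy
    subst this
    simp [ds_zero]
  | succ k ih =>
    intro x y hy
    have hb0 : 0 < b := by omega
    set y' := y / b with hy'
    set d := y % b with hd
    have hdb : d < b := Nat.mod_lt _ hb0
    have hyd : y = b * y' + d := (Nat.div_add_mod y b).symm
    have hy'k : y' < b ^ k := by
      rw [hy', Nat.div_lt_iff_lt_mul hb0, ← pow_succ]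
      exact hy
    have e : x * b ^ (k + 1) + y = b * (x * b ^ k + y') + d := by
      rw [pow_succ]
      calc x * (b ^ k * b) + y = x * (b ^ k * b) + (b * y' + d) := by rw [← hyd]
        _ = _ := by ring
    rw [e, ds_add hb _ _ hdb, ih _ _ hy'k]
    have e2 : ds b y = ds b y' + d := by
      conv_lhs => rw [hyd]
      exact ds_add hb _ _ hdb
    rw [e2]
    ring

/-- the complement -/
theorem ds_compl {b : ℕ} (hb : 2 ≤ b) (k : ℕ) : ∀ u v : ℕ, u + v + 1 = b ^ k →
    ds b u + ds b v = (b - 1) * k := by
  induction k with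
  | zero =>
    intro u v h
    have h1 : u = 0 := by simp at h; omega
    have h2 : v = 0 := by simp at h; omega
    subst h1; subst h2
    simp [ds_zero]
  | succ k ih =>
    intro u v h
    have hb0 : 0 < b := by omega
    set u' := u / b with hu'
    set d := u % b with hd
    set v' := v / b with hv'
    set e := v % b with he
    have hdb : d < b := Nat.mod_lt _ hb0
    have heb : e < b := Nat.mod_lt _ hb0
    have hud : u = b * u' + d := (Nat.div_add_mod u b).symm
    have hve : v = b * v' + e := (Nat.div_add_mod v b).symm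
    have h1 : b * (u' + v') + (d + e + 1) = b * b ^ k := by
      rw [← pow_succ', ← h, hud, hve]
      ring
    -- `d + e + 1` is a multiple of `b` between `1` and `2b - 1`
    have h2 : d + e + 1 = b := by
      have h3 : b ∣ d + e + 1 := by
        have h4 : b ∣ b * (u' + v') + (d + e + 1) := by rw [h1]; exact Dvd.intro _ rfl
        exact (Nat.dvd_add_right (Dvd.intro _ rfl)).1 h4
      obtain ⟨c, hc⟩ := h3
      have hc1 : c < 2 := by
        by_contra hcon
        push Not at hcon
        have : b * 2 ≤ b * c := Nat.mul_le_mul_left b hcon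
        omega
      have : c = 0 ∨ c = 1 := by omega
      rcases this with rfl | rfl
      · omega
      · omega
    have h3 : u' + v' + 1 = b ^ k := by
      have : b * (u' + v' + 1) = b * b ^ k := by
        rw [← h1, h2]; ring
      exact Nat.eq_of_mul_eq_mul_left hb0 this
    have h4 := ih u' v' h3
    have e1 : ds b u = ds b u' + d := by
      conv_lhs => rw [hud]
      exact ds_add hb _ _ hdb
    have e2 : ds b v = ds b v' + e := by
      conv_lhs => rw [hve]
      exact ds_add hb _ _ heb
    rw [e1, e2]
    have h5 : d + e = b - 1 := by omega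
    calc ds b u' + d + (ds b v' + e) = (ds b u' + ds b v') + (d + e) := by ring
      _ = (b - 1) * k + (b - 1) := by rw [h4, h5]
      _ = _ := by ring

/-- the multiples of `b ^ k - 1` -/
theorem ds_mult {b : ℕ} (hb : 2 ≤ b) (k j : ℕ) (hj : 1 ≤ j) (hjb : j ≤ b ^ k) :
    ds b (j * (b ^ k - 1)) = (b - 1) * k := by
  obtain ⟨i, rfl⟩ := Nat.exists_eq_add_of_le hj
  obtain ⟨v, hv⟩ := Nat.exists_eq_add_of_le hjb
  have hpos : 0 < b ^ k := pow_pos (by omega) k
  have e : (1 + i) * (b ^ k - 1) = i * b ^ k + v := by
    have h1 : b ^ k - 1 = i + v := by omega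
    rw [h1]
    have h2 : b ^ k = 1 + i + v := hv
    rw [h2]; ring
  rw [e, ds_split hb k i v (by omega)]
  exact ds_compl hb k i v (by omega)

/-- every small number is a digit sum -/
theorem exists_ds {b : ℕ} (hb : 2 ≤ b) (l : ℕ) : ∀ t : ℕ, t ≤ (b - 1) * l →
    ∃ x, x < b ^ l ∧ ds b x = t := by
  induction l with
  | zero =>
    intro t ht
    exact ⟨0, by simp, by rw [ds_zero]; omega⟩
  | succ l ih =>
    intro t ht
    set d := min t (b - 1) with hd
    obtain ⟨x, hx, hx2⟩ := ih (t - d) (by
      rw [Nat.mul_succ] at ht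
      rcases le_total t (b - 1) with h | h
      · rw [hd, min_eq_left h]; simp
      · rw [hd, min_eq_right h]; omega)
    refine ⟨b * x + d, ?_, ?_⟩
    · have h1 : x + 1 ≤ b ^ l := hx
      have h2 : b * (x + 1) ≤ b * b ^ l := Nat.mul_le_mul_left b h1
      have h3 : d < b := by
        have := min_le_right t (b - 1)
        omega
      rw [pow_succ']
      rw [Nat.mul_succ] at h2
      omega
    · rw [ds_add hb _ _ (by have := min_le_right t (b - 1); omega), hx2]
      have := min_le_left t (b - 1)
      omega

/-- congruence modulo `b - 1` -/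
theorem ds_modEq {b : ℕ} (hb : 2 ≤ b) (n : ℕ) : n ≡ ds b n [MOD b - 1] := by
  induction n using Nat.strong_induction_on with
  | _ n ih =>
    rcases Nat.eq_zero_or_pos n with rfl | hn
    · rw [ds_zero]
    · set x := n / b with hx
      set d := n % b with hd
      have hnd : n = b * x + d := (Nat.div_add_mod n b).symm
      have hlt : x < n := Nat.div_lt_self hn (by omega)
      have h1 := ih x hlt
      have h2 : ds b n = ds b x + d := by
        conv_lhs => rw [hnd]
        exact ds_add hb _ _ (Nat.mod_lt _ (by omega))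
      rw [h2]
      conv_lhs => rw [hnd]
      refine Nat.ModEq.add_right d ?_
      have h3 : b * x = (b - 1) * x + x := by
        obtain ⟨c, rfl⟩ := Nat.exists_eq_add_of_le (by omega : 1 ≤ b)
        rw [Nat.add_sub_cancel_left]; ring
      rw [h3]
      have h4 : (b - 1) * x + x ≡ 0 + x [MOD b - 1] :=
        Nat.ModEq.add_right x ((Nat.modEq_zero_iff_dvd).2 (Dvd.intro _ rfl))
      rw [zero_add] at h4
      exact h4.trans h1

end Pool.Agent.helper391_DG
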